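import Pool.Agent.X171.EL.Stm

set_option autoImplicit false

open Set
open scoped ENNReal

namespace Pool.Agent.X168.EL

open Pool.Agent.X171.ED Pool.Agent.X171.LS Pool.Agent.X171.EL

variable {Z : Type} [NormedAddCommGroup Z] [NormedSpace ℝ Z]

abbrev W1 (Z : Type) [NormedAddCommGroup Z] [NormedSpace ℝ Z] : Type :=
  lp (fun _ : Option ℕ => Z) (1 : ℝ≥0∞)

lemma hp0 : 0 < (1 : ℝ≥0∞).toReal := by simp

lemma q_add1 {S S' : Set (Option ℕ)} (h : Disjoint S S') (x : W1 Z) :
    q S x + q S' x = q (S ∪ S') x := by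
  have := q_add (p := 1) hp0 h x
  simpa using this

lemma q_diff_le (S : Set (Option ℕ)) (x y : W1 Z) : |q S x - q S y| ≤ q S (x - y) := by
  unfold q
  rw [← res_sub]
  exact abs_norm_sub_norm_le _ _

lemma sum_q (T : Finset ℕ) (C : ℕ → Set (Option ℕ)) (hd : ∀ k l, k ≠ l → Disjoint (C k) (C l))
    (hC : ∀ k, C k ⊆ N) (x : W1 Z) : ∑ k ∈ T, q (C k) x ≤ q N x := by
  have h : ∑ k ∈ T, q (C k) x ≤ q (⋃ k ∈ T, C k) x := by
    induction T using Finset.induction_on with
    | empty => rw [Finset.sum_empty]; exact q_nonneg _ _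
    | insert a s ha ih =>
      rw [Finset.sum_insert ha]
      have hdis : Disjoint (C a) (⋃ k ∈ s, C k) := by
        rw [Set.disjoint_iUnion₂_right]
        intro k hk
        exact hd a k (fun h => ha (h ▸ hk))
      have h2 := q_add1 hdis x
      rw [Finset.set_biUnion_insert, ← h2]
      linarith
  exact h.trans (q_mono (iUnion₂_subset fun k _ => hC k) x)

/-- the weight -/
noncomputable def w (S : Set (Option ℕ)) (x : W1 Z) : ℝ := q S x / q N x

lemma w_nonneg (S : Set (Option ℕ)) (x : W1 Z) : 0 ≤ w S x := div_nonneg (q_nonneg _ _) (q_nonneg _ _)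

lemma sum_w (T : Finset ℕ) (C : ℕ → Set (Option ℕ)) (hd : ∀ k l, k ≠ l → Disjoint (C k) (C l))
    (hC : ∀ k, C k ⊆ N) (x : W1 Z) : ∑ k ∈ T, w (C k) x ≤ 1 := by
  unfold w
  rw [← Finset.sum_div]
  exact div_le_one_of_le₀ (sum_q T C hd hC x) (q_nonneg _ _)

lemma key_lip (T : Finset ℕ) (C : ℕ → Set (Option ℕ)) (hd : ∀ k l, k ≠ l → Disjoint (C k) (C l))
    (hC : ∀ k, C k ⊆ N) (f : ℕ → W1 Z → ℝ) (L : ℝ) (hL : 0 ≤ L)
    (hf : ∀ k x y, |f k x - f k y| ≤ L * ‖x - y‖) (hf0 : ∀ k x, |f k x| ≤ L * q N x) (x y : W1 Z) :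
    |∑ k ∈ T, w (C k) x * f k x - ∑ k ∈ T, w (C k) y * f k y| ≤ 3 * L * ‖x - y‖ := by
  have key0 : ∀ x y : W1 Z, q N x = 0 →
      |∑ k ∈ T, w (C k) x * f k x - ∑ k ∈ T, w (C k) y * f k y| ≤ 3 * L * ‖x - y‖ := by
    intro x y hx
    have h1 : ∀ k, f k x = 0 := fun k => by
      have := hf0 k x
      rw [hx, mul_zero] at this
      exact abs_eq_zero.mp (le_antisymm this (abs_nonneg _))
    have h2 : ∑ k ∈ T, w (C k) x * f k x = 0 := Finset.sum_eq_zero fun k _ => by rw [h1 k, mul_zero]
    rw [h2, zero_sub, abs_neg]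
    have hxy := norm_nonneg (x - y)
    calc |∑ k ∈ T, w (C k) y * f k y| ≤ ∑ k ∈ T, |w (C k) y * f k y| := Finset.abs_sum_le_sum_abs _ _
      _ ≤ ∑ k ∈ T, w (C k) y * (L * ‖x - y‖) := Finset.sum_le_sum fun k _ => by
          rw [abs_mul, abs_of_nonneg (w_nonneg _ _)]
          refine mul_le_mul_of_nonneg_left ?_ (w_nonneg _ _)
          have := hf k x y
          rw [h1 k, zero_sub, abs_neg] at this
          exact this
      _ = (∑ k ∈ T, w (C k) y) * (L * ‖x - y‖) := by rw [Finset.sum_mul]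
      _ ≤ 1 * (L * ‖x - y‖) := mul_le_mul_of_nonneg_right (sum_w T C hd hC y) (by positivity)
      _ ≤ 3 * L * ‖x - y‖ := by
          have : 0 ≤ L * ‖x - y‖ := by positivity
          linarith
  rcases (q_nonneg N x).eq_or_lt with hx | hx
  · exact key0 x y hx.symm
  rcases (q_nonneg N y).eq_or_lt with hy | hy
  · rw [abs_sub_comm, norm_sub_rev]
    exact key0 y x hy.symm
  set d := ‖x - y‖ with hd'
  have hd0 : 0 ≤ d := norm_nonneg _
  have hqN : |q N y - q N x| ≤ d := by
    rw [abs_sub_comm]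
    exact (q_diff_le N x y).trans (q_le N _)
  have hpt : ∀ k, |w (C k) x * f k x - w (C k) y * f k y| ≤
      L * q (C k) (x - y) + L * (w (C k) y * d) + w (C k) y * (L * d) := by
    intro k
    have e1 : |w (C k) x - w (C k) y| * q N x ≤ q (C k) (x - y) + w (C k) y * d := by
      have h3 : (w (C k) x - w (C k) y) * q N x =
          (q (C k) x - q (C k) y) + w (C k) y * (q N y - q N x) := by
        unfold w
        field_simp
        ring
      rw [← abs_of_pos hx, ← abs_mul, h3]
      refine (abs_add_le _ _).trans (add_le_add (q_diff_le _ _ _) ?_)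
      rw [abs_mul, abs_of_nonneg (w_nonneg _ _)]
      exact mul_le_mul_of_nonneg_left hqN (w_nonneg _ _)
    have e2 : w (C k) x * f k x - w (C k) y * f k y =
        (w (C k) x - w (C k) y) * f k x + w (C k) y * (f k x - f k y) := by ring
    rw [e2]
    refine (abs_add_le _ _).trans (add_le_add ?_ ?_)
    · rw [abs_mul]
      calc |w (C k) x - w (C k) y| * |f k x| ≤ |w (C k) x - w (C k) y| * (L * q N x) :=
            mul_le_mul_of_nonneg_left (hf0 k x) (abs_nonneg _)
        _ = L * (|w (C k) x - w (C k) y| * q N x) := by ring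
        _ ≤ L * (q (C k) (x - y) + w (C k) y * d) := mul_le_mul_of_nonneg_left e1 hL
        _ = _ := by ring
    · rw [abs_mul, abs_of_nonneg (w_nonneg _ _)]
      exact mul_le_mul_of_nonneg_left (hf k x y) (w_nonneg _ _)
  have s1 := sum_q T C hd hC (x - y)
  have s2 := sum_w T C hd hC y
  have s3 := q_le N (x - y)
  calc |∑ k ∈ T, w (C k) x * f k x - ∑ k ∈ T, w (C k) y * f k y|
      = |∑ k ∈ T, (w (C k) x * f k x - w (C k) y * f k y)| := by rw [Finset.sum_sub_distrib]
    _ ≤ ∑ k ∈ T, |w (C k) x * f k x - w (C k) y * f k y| := Finset.abs_sum_le_sum_abs _ _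
    _ ≤ ∑ k ∈ T, (L * q (C k) (x - y) + L * (w (C k) y * d) + w (C k) y * (L * d)) :=
        Finset.sum_le_sum fun k _ => hpt k
    _ = L * ∑ k ∈ T, q (C k) (x - y) + 2 * (L * d) * ∑ k ∈ T, w (C k) y := by
        rw [Finset.sum_add_distrib, Finset.sum_add_distrib, Finset.mul_sum, Finset.mul_sum,
          add_assoc, ← Finset.sum_add_distrib]
        congr 1
        exact Finset.sum_congr rfl fun k _ => by ring
    _ ≤ L * d + 2 * (L * d) * 1 := by
        refine add_le_add (mul_le_mul_of_nonneg_left (s1.trans s3) hL)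
          (mul_le_mul_of_nonneg_left s2 (by positivity))
    _ = 3 * L * d := by ring

/-- vanishing on the first coordinate -/
def Van (F : Lip0 (W1 Z)) : Prop := ∀ z : Z, F (lp.single 1 none z : W1 Z) = 0

lemma van_le {F : Lip0 (W1 Z)} (hF : Van F) (x : W1 Z) : |F x| ≤ ‖F‖ * q N x := by
  have h1 := Lip.norm_sub_le F x (lp.single 1 none (x none) : W1 Z)
  have h3 : x - (lp.single 1 none (x none) : W1 Z) = res N x := by
    apply lp.ext
    funext i
    change x i - (lp.single 1 none (x none) : W Z 1) i = res N x i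
    cases i with
    | none => rw [res_of_not_mem none_not_mem_N, single_self, sub_self]
    | some n =>
      rw [res_of_mem (show some n ∈ N from ⟨n, rfl⟩), single_ne _ (by simp), sub_zero]
  rw [hF (x none), sub_zero, dist_eq_norm, h3] at h1
  exact h1

lemma lip_abs (F : Lip0 (W1 Z)) (x y : W1 Z) : |F x - F y| ≤ ‖F‖ * ‖x - y‖ := by
  have := Lip.norm_sub_le F x y
  rwa [dist_eq_norm] at this

/-- the isometry of a permutation -/
noncomputable def gg (π : Equiv.Perm ℕ) : W1 Z ≃ₗᵢ[ℝ] W1 Z := reindex hp0 (Equiv.optionCongr π)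

lemma qN_gg (π : Equiv.Perm ℕ) (x : W1 Z) : q N (gg π x) = q N x := by
  unfold gg
  rw [q_reindex, image_N]

lemma gg_single (π : Equiv.Perm ℕ) (z : Z) :
    gg π (lp.single 1 none z : W1 Z) = (lp.single 1 none z : W1 Z) :=
  reindex_single hp0 (Equiv.optionCongr π) none none rfl z

lemma van_pull {F : Lip0 (W1 Z)} (hF : Van F) (π : Equiv.Perm ℕ) : Van (pull (gg π) F) := by
  intro z
  rw [pull_apply, gg_single]
  exact hF z

lemma norm_pull_le {X V : Type} [NormedAddCommGroup X] [NormedSpace ℝ X] [NormedAddCommGroup V]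
    [NormedSpace ℝ V] (g : X ≃ₗᵢ[ℝ] V) (F : Lip0 V) : ‖pull g F‖ ≤ ‖F‖ := by
  refine Lip.norm_le _ (norm_nonneg _) (fun a b => ?_)
  have h := Lip.norm_sub_le F (g a) (g b)
  rwa [g.dist_map] at h

/-- the pieces -/
noncomputable def U {F : Lip0 (W1 Z)} (hF : Van F) (A : Set ℕ) : Lip0 (W1 Z) :=
  Lip.mk (fun x => w (some '' A) x * F x) (by rw [F.base, mul_zero]) (3 * ‖F‖) (fun x y => by
    have h := key_lip {0} (fun k => if k = 0 then some '' A else ∅) (by
      intro k l hkl
      by_cases hk : k = 0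
      · have hl : l ≠ 0 := fun h => hkl (hk.trans h.symm)
        simp [hl]
      · simp [hk]) (by
      intro k
      by_cases hk : k = 0
      · simp only [hk, if_true]; exact some_sub A
      · simp [hk]) (fun _ => F) ‖F‖ (norm_nonneg _) (fun _ => lip_abs F) (fun _ => van_le hF) x y
    simp only [Finset.sum_singleton, if_true] at h
    rw [dist_eq_norm, Real.norm_eq_abs]
    exact h)

lemma U_apply {F : Lip0 (W1 Z)} (hF : Van F) (A : Set ℕ) (x : W1 Z) :
    U hF A x = w (some '' A) x * F x := rfl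

lemma pull_U' {F : Lip0 (W1 Z)} (hF : Van F) (A : Set ℕ) (π : Equiv.Perm ℕ) (x : W1 Z) :
    pull (gg π) (U hF A) x = w (some '' (π '' A)) x * F (gg π x) := by
  rw [pull_apply, U_apply]
  congr 1
  unfold w
  rw [qN_gg]
  unfold gg
  rw [q_reindex, image_some]

/-- evens and odds -/
def AA (k : ℕ) : Set ℕ := {n | n % 2 = k % 2}

/-- infinitely many disjoint infinite sets -/
def CC (k : ℕ) : Set ℕ := {n | (Nat.unpair n).1 = k}

lemma AA_inf (k : ℕ) : (AA k).Infinite := by
  refine Set.infinite_of_injective_forall_mem (f := fun m : ℕ => 2 * m + k % 2) ?_ ?_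
  · intro a b h
    simp only at h
    omega
  · intro m
    change (2 * m + k % 2) % 2 = k % 2
    omega

lemma AA_compl (k : ℕ) : (AA k)ᶜ.Infinite := (AA_inf (k + 1)).mono (fun n (hn : n % 2 = (k + 1) % 2) => by
  change ¬ (n % 2 = k % 2)
  omega)

lemma CC_inf (k : ℕ) : (CC k).Infinite := by
  refine Set.infinite_of_injective_forall_mem (f := fun m : ℕ => Nat.pair k m) ?_ ?_
  · intro a b h
    exact (Nat.pair_eq_pair.mp h).2
  · intro m
    change (Nat.unpair (Nat.pair k m)).1 = k
    rw [Nat.unpair_pair]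

lemma CC_disj {k l : ℕ} (h : k ≠ l) : Disjoint (CC k) (CC l) := by
  rw [Set.disjoint_left]
  intro n (hn : _ = k) (hn' : _ = l)
  exact h (hn.symm.trans hn')

lemma CC_compl (k : ℕ) : (CC k)ᶜ.Infinite := (CC_inf (k + 1)).mono (fun n hn hn' =>
  (Set.disjoint_left.mp (CC_disj (show k + 1 ≠ k by omega))) hn hn')

/-- the main lemma -/
theorem main (p : Lip0 (W1 Z) →ₗ[ℝ] ℝ) (K : ℝ) (hK : ∀ f, |p f| ≤ K * ‖f‖)
    (hinv : ∀ (π : Equiv.Perm ℕ) f, p (pull (gg π) f) = p f) (F : Lip0 (W1 Z)) (hF : Van F) :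
    p F = 0 := by
  have hπ : ∀ k, ∃ π : Equiv.Perm ℕ, π '' (AA k) = CC k := fun k =>
    exists_perm (AA_inf k) (AA_compl k) (CC_inf k) (CC_compl k)
  choose π hπ using hπ
  have hsum : F = U hF (AA 0) + U hF (AA 1) := by
    apply Lip.ext
    intro x
    rw [Lip.add_apply, U_apply, U_apply, ← add_mul]
    rcases (q_nonneg N x).eq_or_lt with hx | hx
    · have h1 := van_le hF x
      rw [← hx, mul_zero] at h1
      have h2 : F x = 0 := abs_eq_zero.mp (le_antisymm h1 (abs_nonneg _))
      rw [h2, mul_zero]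
    · have h1 : w (some '' AA 0) x + w (some '' AA 1) x = 1 := by
        unfold w
        rw [← add_div, q_add1]
        · have h2 : (some '' AA 0 ∪ some '' AA 1 : Set (Option ℕ)) = N := by
            rw [← Set.image_union]
            have h3 : AA 0 ∪ AA 1 = Set.univ := by
              ext n
              change (n % 2 = 0 % 2 ∨ n % 2 = 1 % 2) ↔ True
              simp only [iff_true]
              omega
            rw [h3]
            exact Set.image_univ
          rw [h2, div_self hx.ne']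
        · refine (Set.disjoint_image_iff (Option.some_injective ℕ)).mpr ?_
          rw [Set.disjoint_left]
          intro n (hn : n % 2 = 0 % 2) (hn' : n % 2 = 1 % 2)
          omega
      rw [h1, one_mul]
  have hAA : ∀ k, AA (2 * k) = AA 0 ∧ AA (2 * k + 1) = AA 1 := by
    intro k
    constructor
    · ext n
      change n % 2 = (2 * k) % 2 ↔ n % 2 = 0 % 2
      omega
    · ext n
      change n % 2 = (2 * k + 1) % 2 ↔ n % 2 = 1 % 2
      omega
  have hM : ∀ M : ℕ, p (∑ k ∈ Finset.range (2 * M), pull (gg (π k)) (U hF (AA k))) = M * p F := by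
    intro M
    rw [map_sum, Finset.sum_congr rfl (fun k _ => hinv (π k) (U hF (AA k)))]
    induction M with
    | zero => simp
    | succ M ih =>
      have e : 2 * (M + 1) = 2 * M + 1 + 1 := by ring
      rw [e, Finset.sum_range_succ, Finset.sum_range_succ, ih, (hAA M).1, (hAA M).2]
      have h2 : p F = p (U hF (AA 0)) + p (U hF (AA 1)) := by
        rw [← map_add, ← hsum]
      push_cast
      linarith
  have hn : ∀ M : ℕ, ‖∑ k ∈ Finset.range (2 * M), pull (gg (π k)) (U hF (AA k))‖ ≤ 3 * ‖F‖ := by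
    intro M
    refine Lip.norm_le _ (by positivity) (fun x y => ?_)
    rw [Lip.sum_apply, Lip.sum_apply]
    have h := key_lip (Finset.range (2 * M)) (fun k => some '' (CC k)) (fun k l hkl =>
      (Set.disjoint_image_iff (Option.some_injective ℕ)).mpr (CC_disj hkl)) (fun k => some_sub _)
      (fun k x => F (gg (π k) x)) ‖F‖ (norm_nonneg _)
      (fun k x y => by
        have := lip_abs F (gg (π k) x) (gg (π k) y)
        rwa [← map_sub, (gg (π k)).norm_map] at this)
      (fun k x => by
        have := van_le hF (gg (π k) x)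
        rwa [qN_gg] at this) x y
    have e : ∀ x : W1 Z, ∑ k ∈ Finset.range (2 * M), pull (gg (π k)) (U hF (AA k)) x =
        ∑ k ∈ Finset.range (2 * M), w (some '' (CC k)) x * F (gg (π k) x) := fun x =>
      Finset.sum_congr rfl fun k _ => by rw [pull_U', hπ k]
    rw [e x, e y, Real.norm_eq_abs, dist_eq_norm]
    exact h
  have hK0 : 0 ≤ K * (3 * ‖F‖) := by
    rcases (norm_nonneg F).eq_or_lt with h0 | h0
    · rw [← h0]; simp
    · have h1 := (abs_nonneg _).trans (hK F)
      have h2 : 0 ≤ K := by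
        by_contra hneg
        push Not at hneg
        nlinarith
      positivity
  have hfin : ∀ M : ℕ, M * |p F| ≤ K * (3 * ‖F‖) := by
    intro M
    have h1 := hK (∑ k ∈ Finset.range (2 * M), pull (gg (π k)) (U hF (AA k)))
    rw [hM M, abs_mul, Nat.abs_cast] at h1
    rcases le_or_gt 0 K with h2 | h2
    · exact h1.trans (mul_le_mul_of_nonneg_left (hn M) h2)
    · exact h1.trans ((mul_nonpos_of_nonpos_of_nonneg h2.le (norm_nonneg _)).trans hK0)
  by_contra hne
  have hpos : 0 < |p F| := abs_pos.mpr hne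
  obtain ⟨M, hM'⟩ := exists_nat_gt (K * (3 * ‖F‖) / |p F|)
  rw [div_lt_iff₀ hpos] at hM'
  exact absurd (hfin M) (not_le.mpr hM')

theorem t_LOC : S_LOC := by
  intro Z X _ _ _ _ e P hP F hF z
  set z0 : W1 Z := lp.single 1 none z with hz0
  let p : Lip0 (W1 Z) →ₗ[ℝ] ℝ :=
    { toFun := fun f => P (pull e f) (e.symm z0)
      map_add' := fun f g => by rw [map_add, map_add]; rfl
      map_smul' := fun c f => by rw [map_smul, map_smul]; rfl }
  have hp : ∀ f, p f = P (pull e f) (e.symm z0) := fun _ => rfl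
  have h := main p (‖P‖ * ‖z0‖) (fun f => by
      rw [hp]
      have h1 := (P (pull e f)).le_opNorm (e.symm z0)
      rw [e.symm.norm_map, Real.norm_eq_abs] at h1
      have h2 := P.le_opNorm (pull e f)
      have h3 := norm_pull_le e f
      calc |P (pull e f) (e.symm z0)| ≤ ‖P (pull e f)‖ * ‖z0‖ := h1
        _ ≤ (‖P‖ * ‖pull e f‖) * ‖z0‖ := mul_le_mul_of_nonneg_right h2 (norm_nonneg _)
        _ ≤ (‖P‖ * ‖f‖) * ‖z0‖ := by gcongr
        _ = ‖P‖ * ‖z0‖ * ‖f‖ := by ring)
    (fun π f => by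
      rw [hp, hp]
      have h3 : pull e (pull (gg π) f) = pull ((e.trans (gg π)).trans e.symm) (pull e f) := by
        apply Lip.ext
        intro x
        rw [pull_apply, pull_apply, pull_apply, pull_apply]
        change f (gg π (e x)) = f (e (e.symm (gg π (e x))))
        rw [e.apply_symm_apply]
      rw [h3, hP]
      change P (pull e f) (e.symm (gg π (e (e.symm z0)))) = P (pull e f) (e.symm z0)
      rw [e.apply_symm_apply, hz0, gg_single])
    (pull e.symm F) (fun z => by
      rw [pull_apply]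
      exact hF z)
  rw [hp] at h
  have h4 : pull e (pull e.symm F) = F := by
    apply Lip.ext
    intro x
    rw [pull_apply, pull_apply, e.symm_apply_apply]
  rw [h4] at h
  exact h

end Pool.Agent.X168.EL
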